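import Pool.Agent.H25.LF.Targets

/-!
# MP_04ff0f_nt, board lpf_modules, row BVP: all prime moduli up to `X ^ (1 / 2 - ε)`
-/

set_option autoImplicit false

open Finset Real ArithmeticFunction

namespace Pool.Agent.H69.LF

open Pool.Agent.H25.LF
open Pool.Agent.H30.BV (NX wx WX gg)

theorem SL_split (f : ℕ → ℝ) (hf : ∀ l, 0 ≤ f l) (y w z : ℝ) :
    SL y z f ≤ SL y w f + SL w z f := by
  classical
  unfold SL
  have h1 : (PR z).filter (fun l : ℕ => y < (l : ℝ)) ⊆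
      (PR w).filter (fun l : ℕ => y < (l : ℝ)) ∪ (PR z).filter (fun l : ℕ => w < (l : ℝ)) := by
    intro l hl
    rw [Finset.mem_filter] at hl
    rw [Finset.mem_union, Finset.mem_filter, Finset.mem_filter]
    rcases lt_or_ge w (l : ℝ) with h | h
    · exact Or.inr ⟨hl.1, h⟩
    · refine Or.inl ⟨?_, hl.2⟩
      have h2 := hl.1
      unfold PR at h2 ⊢
      rw [Finset.mem_filter, Finset.mem_Icc] at h2 ⊢
      exact ⟨⟨h2.1.1, Nat.le_floor h⟩, h2.2⟩
  have h0 : ∀ l : ℕ, 0 ≤ Real.log l * f l := fun l =>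
    mul_nonneg (Real.log_natCast_nonneg l) (hf l)
  refine (Finset.sum_le_sum_of_subset_of_nonneg h1 (fun l _ _ => h0 l)).trans ?_
  rw [← Finset.sum_union_inter]
  have h3 := Finset.sum_nonneg (s := (PR w).filter (fun l : ℕ => y < (l : ℝ)) ∩
    (PR z).filter (fun l : ℕ => w < (l : ℝ))) (fun l _ => h0 l)
  linarith

theorem SL_empty (f : ℕ → ℝ) (y z : ℝ) (h : z ≤ y) (hy : 0 ≤ y) : SL y z f = 0 := by
  unfold SL
  refine Finset.sum_eq_zero_iff_of_nonneg ?_ |>.2 ?_ <;>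
  · intro l hl
    exfalso
    rw [Finset.mem_filter] at hl
    have h2 := hl.1
    unfold PR at h2
    rw [Finset.mem_filter, Finset.mem_Icc] at h2
    have h3 : l ≤ ⌊y⌋₊ := h2.1.2.trans (Nat.floor_mono h)
    have h4 : (l : ℝ) ≤ y := (Nat.le_floor_iff hy).1 h3
    exact absurd hl.2 (not_lt.2 h4)

theorem SL_blocks (f : ℕ → ℝ) (hf : ∀ l, 0 ≤ f l) (y : ℝ) (hy : 0 ≤ y) (J : ℕ) :
    SL y (2 ^ J * y) f ≤ ∑ j ∈ Finset.range J, SL (2 ^ j * y) (2 * (2 ^ j * y)) f := by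
  induction J with
  | zero =>
    rw [pow_zero, one_mul, Finset.range_zero, Finset.sum_empty]
    exact (SL_empty f y y le_rfl hy).le
  | succ J ih =>
    rw [Finset.sum_range_succ]
    have h1 := SL_split f hf y (2 ^ J * y) (2 ^ (J + 1) * y)
    have h2 : (2 : ℝ) ^ (J + 1) * y = 2 * (2 ^ J * y) := by
      rw [pow_succ]
      ring
    rw [h2] at h1
    rw [h2]
    linarith

/-- the sizes -/
theorem ev_all {C ε δ : ℝ} (hC : 0 < C) (hε : 0 < ε) (hδ : 0 < δ) : ∃ X₀ : ℝ, ∀ X : ℝ, X₀ ≤ X →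
    Real.log X ^ 5 ≤ δ / (12 * C) * X ^ (min ε (1 / 32)) ∧ 4 * C / δ ≤ Real.log X ^ 2 ∧
    2 ≤ Real.log X ∧ 30 ≤ X := by
  have hη : 0 < min ε (1 / 32) := lt_min hε (by norm_num)
  have h1 : ∀ᶠ X : ℝ in Filter.atTop,
      Real.log X ^ 5 ≤ δ / (12 * C) * X ^ (min ε (1 / 32)) := by
    have h2 := (isLittleO_log_rpow_rpow_atTop (5 : ℝ) hη).bound
      (show (0 : ℝ) < δ / (12 * C) by positivity)
    filter_upwards [h2, Filter.eventually_ge_atTop (1 : ℝ)] with X hX hX1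
    rw [Real.norm_eq_abs, Real.norm_eq_abs] at hX
    have h3 : Real.log X ^ (5 : ℝ) = Real.log X ^ 5 := by
      have h4 : (5 : ℝ) = ((5 : ℕ) : ℝ) := by norm_num
      rw [h4, Real.rpow_natCast]
    rw [h3, abs_of_nonneg (Real.rpow_nonneg (by linarith : (0 : ℝ) ≤ X) _)] at hX
    exact (le_abs_self _).trans hX
  have h2 : ∀ᶠ X : ℝ in Filter.atTop, 4 * C / δ + 2 ≤ Real.log X :=
    Real.tendsto_log_atTop.eventually_ge_atTop _
  obtain ⟨X₀, hX₀⟩ := Filter.eventually_atTop.1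
    (h1.and (h2.and (Filter.eventually_ge_atTop (30 : ℝ))))
  refine ⟨X₀, fun X hX => ?_⟩
  obtain ⟨a1, a2, a3⟩ := hX₀ X hX
  have a4 : 0 < 4 * C / δ := by positivity
  refine ⟨a1, ?_, by linarith, a3⟩
  nlinarith

theorem pf_BVP (hBVB : T_BVB) : T_BVP := by
  obtain ⟨C, hC, hB⟩ := hBVB
  intro ε δ hε hδ
  obtain ⟨X₀, hX₀⟩ := ev_all hC hε hδ
  refine ⟨X₀, fun X hX => ?_⟩
  obtain ⟨a1, a2, a3, a4⟩ := hX₀ X hX
  set f : ℕ → ℝ := fun l => |WD X l - WX X * gg l| with hf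
  have hf0 : ∀ l, 0 ≤ f l := fun l => abs_nonneg _
  set L : ℝ := Real.log X with hL
  set η : ℝ := min ε (1 / 32) with hη
  have hη1 : η ≤ ε := min_le_left _ _
  have hη2 : η ≤ 1 / 32 := min_le_right _ _
  have hX1 : 1 ≤ X := by linarith
  have hX0 : 0 < X := by linarith
  have hL0 : 0 < L := by linarith
  set y : ℝ := L ^ 6 with hy
  have hy64 : 64 ≤ y := by
    calc (64 : ℝ) = 2 ^ 6 := by norm_num
      _ ≤ L ^ 6 := pow_le_pow_left₀ (by norm_num) a3 6
  set z : ℝ := X ^ (1 / 2 - ε) with hz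
  have hzX : z ≤ X ^ (1 / 2 : ℝ) := Real.rpow_le_rpow_of_exponent_le hX1 (by linarith)
  have hsq : X ^ (1 / 2 : ℝ) * X ^ (1 / 2 : ℝ) = X := by
    rw [← Real.rpow_add hX0]
    norm_num
  have hX5 : 2 ≤ X ^ (1 / 2 : ℝ) := by
    by_contra h
    push Not at h
    have h1 : 0 ≤ X ^ (1 / 2 : ℝ) := Real.rpow_nonneg hX0.le _
    nlinarith
  have hzX2 : 2 * z ≤ X := by nlinarith
  have hzX3 : z ≤ X := by nlinarith
  rcases le_or_gt z y with hzy | hzy
  · rw [SL_empty f y z hzy (by linarith)]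
    positivity
  have hex : ∃ n : ℕ, z ≤ 2 ^ n * y := by
    obtain ⟨n, hn⟩ := pow_unbounded_of_one_lt z (by norm_num : (1 : ℝ) < 2)
    refine ⟨n, hn.le.trans ?_⟩
    exact le_mul_of_one_le_right (by positivity) (by linarith)
  classical
  set J : ℕ := Nat.find hex with hJ
  have hJ1 : z ≤ 2 ^ J * y := Nat.find_spec hex
  have hJ2 : ∀ j < J, 2 ^ j * y < z := fun j hj => not_le.1 (Nat.find_min hex hj)
  have hJ0 : 1 ≤ J := by
    by_contra h
    have h1 : J = 0 := by omega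
    rw [h1, pow_zero, one_mul] at hJ1
    linarith
  have hJL : (J : ℝ) ≤ 2 * L := by
    have h1 := hJ2 (J - 1) (by omega)
    have h2 : (2 : ℝ) ^ (J - 1) ≤ X := by
      have h3 : (2 : ℝ) ^ (J - 1) ≤ 2 ^ (J - 1) * y :=
        le_mul_of_one_le_right (by positivity) (by linarith)
      linarith
    have h3 := Real.log_le_log (by positivity) h2
    rw [Real.log_pow, Nat.cast_sub hJ0, Nat.cast_one] at h3
    have h4 := Real.log_two_gt_d9
    by_contra h5
    push Not at h5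
    nlinarith
  -- the blocks
  have hterm : ∀ j ∈ Finset.range J, SL (2 ^ j * y) (2 * (2 ^ j * y)) f ≤
      3 * C * L ^ 4 * X ^ (1 - η) + C * L ^ 4 * (X / y) * (1 / 2) ^ j := by
    intro j hj
    have hjJ := hJ2 j (Finset.mem_range.1 hj)
    set K : ℝ := 2 ^ j * y with hK
    have hKy : y ≤ K := le_mul_of_one_le_left (by linarith) (one_le_pow₀ (by norm_num))
    have hK0 : 0 < K := by linarith
    have hKz : K ≤ z := hjJ.le
    refine (hB X K a4 (by linarith) (by linarith)).trans ?_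
    have b1 : X ^ (1 / 8 : ℝ) * K ^ (3 / 2 : ℝ) ≤ X ^ (1 - η) := by
      have c1 : K ^ (3 / 2 : ℝ) ≤ X ^ (3 / 4 : ℝ) := by
        calc K ^ (3 / 2 : ℝ) ≤ (X ^ (1 / 2 : ℝ)) ^ (3 / 2 : ℝ) :=
              Real.rpow_le_rpow hK0.le (hKz.trans hzX) (by norm_num)
          _ = X ^ (3 / 4 : ℝ) := by
            rw [← Real.rpow_mul hX0.le]
            norm_num
      calc X ^ (1 / 8 : ℝ) * K ^ (3 / 2 : ℝ) ≤ X ^ (1 / 8 : ℝ) * X ^ (3 / 4 : ℝ) :=
            mul_le_mul_of_nonneg_left c1 (Real.rpow_nonneg hX0.le _)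
        _ = X ^ (7 / 8 : ℝ) := by
            rw [← Real.rpow_add hX0]
            norm_num
        _ ≤ X ^ (1 - η) := Real.rpow_le_rpow_of_exponent_le hX1 (by linarith)
    have b2 : √X * K ≤ X ^ (1 - η) := by
      rw [Real.sqrt_eq_rpow]
      calc X ^ (1 / 2 : ℝ) * K ≤ X ^ (1 / 2 : ℝ) * X ^ (1 / 2 - ε) :=
            mul_le_mul_of_nonneg_left hKz (Real.rpow_nonneg hX0.le _)
        _ = X ^ (1 - ε) := by
            rw [← Real.rpow_add hX0]
            ring_nf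
        _ ≤ X ^ (1 - η) := Real.rpow_le_rpow_of_exponent_le hX1 (by linarith)
    have b3 : X ^ (31 / 32 : ℝ) ≤ X ^ (1 - η) :=
      Real.rpow_le_rpow_of_exponent_le hX1 (by linarith)
    have b4 : X / K = (X / y) * (1 / 2) ^ j := by
      rw [hK, one_div, inv_pow]
      field_simp
    rw [b4]
    have b5 : 0 ≤ C * L ^ 4 := by positivity
    calc C * L ^ 4 * (X ^ (1 / 8 : ℝ) * K ^ (3 / 2 : ℝ) + √X * K + X ^ (31 / 32 : ℝ) +
          X / y * (1 / 2) ^ j)
        ≤ C * L ^ 4 * (X ^ (1 - η) + X ^ (1 - η) + X ^ (1 - η) + X / y * (1 / 2) ^ j) :=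
          mul_le_mul_of_nonneg_left (by linarith) b5
      _ = 3 * C * L ^ 4 * X ^ (1 - η) + C * L ^ 4 * (X / y) * (1 / 2) ^ j := by ring
  have hsum : SL y z f ≤ J * (3 * C * L ^ 4 * X ^ (1 - η)) + C * L ^ 4 * (X / y) * 2 := by
    calc SL y z f ≤ SL y (2 ^ J * y) f := by
          have h1 := SL_split f hf0 y (2 ^ J * y) z
          rw [SL_empty f (2 ^ J * y) z hJ1 (by positivity)] at h1
          linarith
      _ ≤ ∑ j ∈ Finset.range J, SL (2 ^ j * y) (2 * (2 ^ j * y)) f :=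
          SL_blocks f hf0 y (by linarith) J
      _ ≤ ∑ j ∈ Finset.range J,
          (3 * C * L ^ 4 * X ^ (1 - η) + C * L ^ 4 * (X / y) * (1 / 2) ^ j) :=
          Finset.sum_le_sum hterm
      _ = J * (3 * C * L ^ 4 * X ^ (1 - η)) +
          C * L ^ 4 * (X / y) * ∑ j ∈ Finset.range J, (1 / 2 : ℝ) ^ j := by
          rw [Finset.sum_add_distrib, Finset.sum_const, Finset.card_range, nsmul_eq_mul,
            Finset.mul_sum]
      _ ≤ _ := by
          have h1 := sum_geometric_two_le J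
          have h2 : 0 ≤ C * L ^ 4 * (X / y) := by positivity
          have h3 := mul_le_mul_of_nonneg_left h1 h2
          linarith
  have c1 : (J : ℝ) * (3 * C * L ^ 4 * X ^ (1 - η)) ≤ δ / 2 * X := by
    have hXη : X ^ (1 - η) * X ^ η = X := by
      rw [← Real.rpow_add hX0, sub_add_cancel, Real.rpow_one]
    have h0 : 0 ≤ X ^ (1 - η) := Real.rpow_nonneg hX0.le _
    calc (J : ℝ) * (3 * C * L ^ 4 * X ^ (1 - η)) ≤ 2 * L * (3 * C * L ^ 4 * X ^ (1 - η)) :=
          mul_le_mul_of_nonneg_right hJL (by positivity)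
      _ = 6 * C * X ^ (1 - η) * L ^ 5 := by ring
      _ ≤ 6 * C * X ^ (1 - η) * (δ / (12 * C) * X ^ η) :=
          mul_le_mul_of_nonneg_left a1 (by positivity)
      _ = δ / 2 * (X ^ (1 - η) * X ^ η) := by
          field_simp
          ring
      _ = δ / 2 * X := by rw [hXη]
  have c2 : C * L ^ 4 * (X / y) * 2 ≤ δ / 2 * X := by
    have h1 : C * L ^ 4 * (X / y) * 2 = 2 * C * X / L ^ 2 := by
      rw [hy]
      field_simp
    rw [h1, div_le_iff₀ (by positivity)]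
    have h2 : 4 * C ≤ L ^ 2 * δ := by
      rw [div_le_iff₀ hδ] at a2
      exact a2
    nlinarith
  linarith

end Pool.Agent.H69.LF
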