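import Pool.Agent.H25.LF.Targets
import Pool.Agent.H30.PF.FA
import Pool.Agent.H30.PF.GM
import Pool.Agent.H48.PF.BT
import Pool.Agent.H33.PF.EU
import Pool.Agent.H33.PF.EX
import Pool.Agent.H33.PF.M8
import Pool.Agent.H33.PF.TR
import Pool.Agent.H12.PF.MR
import Pool.Agent.H74.PF.E1
import Pool.Agent.H74.PF.E2
import Pool.Agent.H74.PF.PN
import Pool.Agent.H65.PF.RT
import Pool.Agent.H65.PF.SG

/-!
# MP_04ff0f_nt, board lpf_modules, row FIN: the splits with two large prime factors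
-/

set_option autoImplicit false

open Finset Real ArithmeticFunction

namespace Pool.Agent.H69.LF

open Pool.Agent.H25.LF
open Pool.Agent.H30.PF (pr Good)

/-- the bound for the exceptional `k` -/
theorem exc_card {n : ℕ} {θ : ℝ} (f : ℕ → ℕ) (hθ : 0 < θ)
    (hf1 : ∀ k ∈ Icc 1 (n - 1), 1 ≤ f k) (hf2 : ∀ k ∈ Icc 1 (n - 1), f k ≤ n)
    (hinj : ∀ k ∈ Icc 1 (n - 1), ∀ l ∈ Icc 1 (n - 1), f k = f l → k = l) (hn : 1 ≤ n)
    (E : Finset ℕ) (hE1 : E ⊆ Icc 1 (n - 1))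
    (hE : ∀ k ∈ E, ¬ ∃ l : ℕ, l.Prime ∧ l ∣ pr (f k) ^ 2 - 2 ∧ (n : ℝ) ^ θ < l) :
    E.card ≤ (BD (pr n) θ).card := by
  classical
  refine Finset.card_le_card_of_injOn (fun k => pr (f k)) ?_ ?_
  · intro k hk
    rw [Finset.mem_coe] at hk ⊢
    have hkS := hE1 hk
    unfold BD PR
    rw [Finset.mem_filter, Finset.mem_filter, Finset.mem_Icc, Nat.floor_natCast]
    refine ⟨⟨⟨(Pool.Agent.H30.PF.pr_prime _).one_lt.le,
      Pool.Agent.H30.PF.pr_mono (hf2 k hkS)⟩, Pool.Agent.H30.PF.pr_prime _⟩, ?_⟩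
    intro l hl hld
    by_contra hcon
    push Not at hcon
    refine hE k hk ⟨l, hl, hld, lt_of_le_of_lt ?_ hcon⟩
    refine Real.rpow_le_rpow (Nat.cast_nonneg n) ?_ hθ.le
    have h3 := Pool.Agent.H30.PF.le_pr hn
    have h4 : n ≤ pr n := by omega
    exact_mod_cast h4
  · intro k hk l hl hkl
    rw [Finset.mem_coe] at hk hl
    have hkS := hE1 hk
    have hlS := hE1 hl
    exact hinj k hkS l hlS (Pool.Agent.H30.PF.pr_inj (hf1 k hkS) (hf1 l hlS) hkl)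

theorem pf_FIN (hBAD : T_BAD) : T_FIN := by
  classical
  intro θ₁ θ₂ ε h1 h1' h2 h2' hbb hε
  have hGM := Pool.Agent.H30.PF.gm (Pool.Agent.H30.PF.tr Pool.Agent.H65.PF.sg)
    Pool.Agent.H65.PF.rt Pool.Agent.H48.PF.bt Pool.Agent.H30.PF.eu
  have hMR := Pool.Agent.H12.PF.mr
  have hEX := Pool.Agent.H30.PF.EX.ex (Pool.Agent.H74.PF.e1 hGM (Pool.Agent.H30.PF.M8.m8 hMR))
    (Pool.Agent.H74.PF.e2 hGM hMR)
  have hFA := Pool.Agent.H30.PF.fa hEX Pool.Agent.H74.PF.pn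
  obtain ⟨d, n₁, hd, hn₁⟩ := hFA ε hε
  set δ : ℝ := (1 - bb θ₁ - bb θ₂) / 8 with hδ
  have hδ0 : 0 < δ := by
    rw [hδ]
    linarith
  obtain ⟨x₁, hx₁⟩ := hBAD θ₁ δ h1 h1' hδ0
  obtain ⟨x₂, hx₂⟩ := hBAD θ₂ δ h2 h2' hδ0
  have hev : ∀ᶠ n : ℕ in Filter.atTop, (1 / δ : ℝ) ≤ (Real.log (n : ℝ)) ^ d := by
    have h3 := (tendsto_rpow_atTop hd).comp Pool.Agent.H30.PF.tends_log
    exact h3.eventually_ge_atTop (1 / δ)
  have hev2 : ∀ᶠ n : ℕ in Filter.atTop, (1 / δ : ℝ) ≤ (n : ℝ) :=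
    tendsto_natCast_atTop_atTop.eventually_ge_atTop (1 / δ)
  obtain ⟨n₂, hn₂⟩ := Filter.eventually_atTop.1
    (hev.and (hev2.and (Filter.eventually_ge_atTop (max n₁ (max x₁ (max x₂ 2))))))
  refine ⟨δ, n₂, hδ0, ?_⟩
  intro n hn
  obtain ⟨hA, hB, hC⟩ := hn₂ n hn
  have hC1 : n₁ ≤ n := le_trans (le_max_left _ _) hC
  have hC2 : x₁ ≤ n := le_trans (le_trans (le_max_left _ _) (le_max_right _ _)) hC
  have hC3 : x₂ ≤ n := le_trans (le_trans (le_trans (le_max_left _ _) (le_max_right _ _))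
    (le_max_right _ _)) hC
  have hC4 : 2 ≤ n := le_trans (le_trans (le_trans (le_max_right _ _) (le_max_right _ _))
    (le_max_right _ _)) hC
  have hprn : n + 1 ≤ pr n := Pool.Agent.H30.PF.le_pr (by omega)
  have hpc : Nat.primeCounting (pr n) = n := by
    have h3 := Pool.Agent.H74.PF.primeCounting_nth (n - 1)
    unfold pr
    rw [h3]
    omega
  have hb1 := hx₁ (pr n) (by omega)
  have hb2 := hx₂ (pr n) (by omega)
  rw [hpc] at hb1 hb2
  have hg := hn₁ n hC1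
  set S : Finset ℕ := Icc 1 (n - 1) with hS
  set P1 : ℕ → Prop := fun k => ∃ l : ℕ, l.Prime ∧ l ∣ pr k ^ 2 - 2 ∧ (n : ℝ) ^ θ₁ < l with hP1
  set P2 : ℕ → Prop := fun k => ∃ l : ℕ, l.Prime ∧ l ∣ pr (n - k) ^ 2 - 2 ∧ (n : ℝ) ^ θ₂ < l
    with hP2
  have e1 : (S.filter (fun k => ¬ P1 k)).card ≤ (BD (pr n) θ₁).card := by
    refine exc_card (n := n) (fun k => k) h1 ?_ ?_ ?_ (by omega) _ (Finset.filter_subset _ _) ?_
    · intro k hk
      exact (Finset.mem_Icc.1 hk).1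
    · intro k hk
      have := (Finset.mem_Icc.1 hk).2
      omega
    · intro k _ l _ h
      exact h
    · intro k hk
      exact (Finset.mem_filter.1 hk).2
  have e2 : (S.filter (fun k => ¬ P2 k)).card ≤ (BD (pr n) θ₂).card := by
    refine exc_card (n := n) (fun k => n - k) h2 ?_ ?_ ?_ (by omega) _
      (Finset.filter_subset _ _) ?_
    · intro k hk
      have := (Finset.mem_Icc.1 hk).2
      omega
    · intro k _
      exact Nat.sub_le _ _
    · intro k hk l hl h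
      have h3 := Finset.mem_Icc.1 hk
      have h4 := Finset.mem_Icc.1 hl
      omega
    · intro k hk
      exact (Finset.mem_filter.1 hk).2
  have e3 : S ⊆ (S.filter (fun k => Good ε n k (n - k) ∧ P1 k ∧ P2 k)) ∪
      ((S.filter (fun k => ¬ Good ε n k (n - k))) ∪
      ((S.filter (fun k => ¬ P1 k)) ∪ (S.filter (fun k => ¬ P2 k)))) := by
    intro k hk
    simp only [Finset.mem_union, Finset.mem_filter, hk, true_and]
    by_cases hg1 : Good ε n k (n - k)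
    · by_cases hg2 : P1 k
      · by_cases hg3 : P2 k
        · exact Or.inl ⟨hg1, hg2, hg3⟩
        · exact Or.inr (Or.inr (Or.inr hg3))
      · exact Or.inr (Or.inr (Or.inl hg2))
    · exact Or.inr (Or.inl hg1)
  have e4 : S.card ≤ (S.filter (fun k => Good ε n k (n - k) ∧ P1 k ∧ P2 k)).card +
      ((S.filter (fun k => ¬ Good ε n k (n - k))).card +
      ((S.filter (fun k => ¬ P1 k)).card + (S.filter (fun k => ¬ P2 k)).card)) := by
    refine (Finset.card_le_card e3).trans ((Finset.card_union_le _ _).trans ?_)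
    refine Nat.add_le_add_left ((Finset.card_union_le _ _).trans ?_) _
    exact Nat.add_le_add_left (Finset.card_union_le _ _) _
  have e5 : (S.card : ℝ) = n - 1 := by
    rw [hS, Nat.card_Icc, Nat.add_sub_cancel, Nat.cast_sub (by omega), Nat.cast_one]
  have e6 : ((S.card : ℕ) : ℝ) ≤
      ((S.filter (fun k => Good ε n k (n - k) ∧ P1 k ∧ P2 k)).card : ℝ) +
      (((S.filter (fun k => ¬ Good ε n k (n - k))).card : ℝ) +
      (((S.filter (fun k => ¬ P1 k)).card : ℝ) + ((S.filter (fun k => ¬ P2 k)).card : ℝ))) := by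
    exact_mod_cast e4
  have e7 : ((S.filter (fun k => ¬ P1 k)).card : ℝ) ≤ (bb θ₁ + δ) * n :=
    le_trans (by exact_mod_cast e1) hb1
  have e8 : ((S.filter (fun k => ¬ P2 k)).card : ℝ) ≤ (bb θ₂ + δ) * n :=
    le_trans (by exact_mod_cast e2) hb2
  have hn0 : (0 : ℝ) ≤ n := Nat.cast_nonneg n
  have e9 : (n : ℝ) / (Real.log n) ^ d ≤ δ * n := by
    have h3 : 0 < (Real.log (n : ℝ)) ^ d := lt_of_lt_of_le (by positivity) hA
    rw [div_le_iff₀ h3]
    have h4 : 1 ≤ δ * (Real.log (n : ℝ)) ^ d := by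
      rw [div_le_iff₀ hδ0] at hA
      linarith
    calc (n : ℝ) = n * 1 := (mul_one _).symm
      _ ≤ n * (δ * (Real.log (n : ℝ)) ^ d) := mul_le_mul_of_nonneg_left h4 hn0
      _ = δ * n * (Real.log (n : ℝ)) ^ d := by ring
  have e10 : (1 : ℝ) ≤ δ * n := by
    rw [div_le_iff₀ hδ0] at hB
    linarith
  have e11 : bb θ₁ + bb θ₂ = 1 - 8 * δ := by
    rw [hδ]
    ring
  have e12 : (bb θ₁ + δ) * (n : ℝ) + (bb θ₂ + δ) * n = n - 6 * (δ * n) := by
    calc (bb θ₁ + δ) * (n : ℝ) + (bb θ₂ + δ) * n = (bb θ₁ + bb θ₂ + 2 * δ) * n := by ring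
      _ = n - 6 * (δ * n) := by
        rw [e11]
        ring
  have e13 : (((S.filter (fun k => ¬ Good ε n k (n - k))).card : ℕ) : ℝ) ≤ δ * n :=
    le_trans hg e9
  linarith

end Pool.Agent.H69.LF
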